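import Pool.Agent.Helper24.Sharp.Defs

/-!
# Basic facts about cells of the grid `[N]^n` with uniform margins
-/

set_option autoImplicit false

namespace Pool.Agent.Helper24.Sharp

open MeasureTheory Finset Pool.Agent.Helper43.Copula Pool.Agent.Helper3.Cop

variable {n N : ℕ}

theorem mean1 {w : (Fin n → Fin N) → ℝ} (hw : UnifW w) (k : Fin n) (g : Fin N → ℝ) :
    ∑ p : Fin n → Fin N, w p * g (p k) = (∑ c, g c) / N := by
  have h1 : ∀ q : Fin n → Fin N, w q * g (q k) =
      ∑ c : Fin N, g c * (if q k = c then w q else 0) := by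
    intro q
    rw [sum_eq_single (q k)]
    · simp [mul_comm]
    · intro c _ hc
      rw [if_neg (fun h : q k = c => hc h.symm), mul_zero]
    · intro h; exact absurd (mem_univ _) h
  rw [sum_congr rfl fun q _ => h1 q, sum_comm]
  simp_rw [← mul_sum]
  rw [sum_congr rfl fun c _ => by rw [hw k c], ← sum_mul]
  ring

theorem total (hn : 1 ≤ n) {w : (Fin n → Fin N) → ℝ} (hw : UnifW w) (hN : 1 ≤ N) :
    ∑ p, w p = 1 := by
  have hN' : (N : ℝ) ≠ 0 := by positivity
  have h := mean1 hw ⟨0, hn⟩ (fun _ => 1)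
  simp only [mul_one, sum_const, card_univ, Fintype.card_fin, nsmul_eq_mul] at h
  rw [h, div_self hN']

theorem card_ge (a : Fin N) : ∑ c : Fin N, (if a ≤ c then (1 : ℝ) else 0) = (N : ℝ) - (a : ℕ) := by
  rw [← sum_filter, sum_const, nsmul_eq_mul, mul_one]
  have h3 : (univ.filter fun c : Fin N => a ≤ c) = Ici a := by
    ext c; simp
  rw [h3, Fin.card_Ici, Nat.cast_sub a.isLt.le]

theorem ge1 {w : (Fin n → Fin N) → ℝ} (hw : UnifW w) (k : Fin n) (a : Fin N) :
    ∑ q : Fin n → Fin N, w q * (if a ≤ q k then 1 else 0) = sx N a := by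
  rw [mean1 hw k (fun c => if a ≤ c then 1 else 0), card_ge]
  rfl

theorem sx_le_iff (hN : 1 ≤ N) (a b : Fin N) : sx N a ≤ sx N b ↔ b ≤ a := by
  have hN' : (0 : ℝ) < N := by positivity
  unfold sx
  rw [div_le_div_iff_of_pos_right hN', Fin.le_def]
  constructor
  · intro h
    have : ((b : ℕ) : ℝ) ≤ (a : ℕ) := by linarith
    exact_mod_cast this
  · intro h
    have : ((b : ℕ) : ℝ) ≤ (a : ℕ) := by exact_mod_cast h
    linarith

theorem min_sx (hN : 1 ≤ N) (a b : Fin N) : min (sx N a) (sx N b) = sx N (max a b) := by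
  rcases le_total a b with h | h
  · rw [max_eq_right h, min_eq_right ((sx_le_iff hN b a).mpr h)]
  · rw [max_eq_left h, min_eq_left ((sx_le_iff hN a b).mpr h)]

theorem ge2 {w : (Fin n → Fin N) → ℝ} (hw : UnifW w) (hN : 1 ≤ N) (k : Fin n) (a b : Fin N) :
    ∑ q : Fin n → Fin N, w q * (if a ≤ q k ∧ b ≤ q k then 1 else 0) =
      min (sx N a) (sx N b) := by
  rw [min_sx hN, ← ge1 hw k (max a b)]
  apply sum_congr rfl
  intro q _
  simp only [max_le_iff]

theorem sx_pos (hN : 1 ≤ N) (c : Fin N) : 0 < sx N c := by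
  unfold sx
  have h1 : ((c : ℕ) : ℝ) < N := by exact_mod_cast c.isLt
  have hN' : (0 : ℝ) < N := by positivity
  apply div_pos _ hN'
  linarith

theorem sx_le_one (c : Fin N) : sx N c ≤ 1 := by
  unfold sx
  apply div_le_one_of_le₀
  · have : (0 : ℝ) ≤ ((c : ℕ) : ℝ) := by positivity
    linarith
  · positivity

theorem sum_pi_prod {m : ℕ} (g : Fin m → (Fin n → Fin N) → ℝ) :
    ∑ Q : Fin m → (Fin n → Fin N), ∏ l, g l (Q l) = ∏ l, ∑ q, g l q := by
  rw [Finset.prod_univ_sum, Fintype.piFinset_univ]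

/-- the mixed cell is uniformly distributed (argument of helper54) -/
theorem sum_diag {w : (Fin n → Fin N) → ℝ} (hw : UnifW w) (f : (Fin n → Fin N) → ℝ) :
    ∑ P : Fin n → (Fin n → Fin N), (∏ i, w (P i)) * f (fun k => P k k) =
      ∑ c : Fin n → Fin N, f c * (1 / (N : ℝ)) ^ n := by
  calc ∑ P : Fin n → (Fin n → Fin N), (∏ i, w (P i)) * f (fun k => P k k)
      = ∑ P : Fin n → (Fin n → Fin N), ∑ c : Fin n → Fin N,
          f c * ∏ i, (if P i i = c i then w (P i) else 0) := by
        apply sum_congr rfl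
        intro P _
        rw [sum_eq_single (fun k => P k k)]
        · simp only [if_true]
          ring
        · intro c _ hc
          obtain ⟨i, hi⟩ : ∃ i, P i i ≠ c i := by
            by_contra h
            push Not at h
            exact hc (funext fun i => (h i).symm)
          rw [prod_eq_zero (mem_univ i) (if_neg hi), mul_zero]
        · intro h
          exact absurd (mem_univ _) h
    _ = ∑ c : Fin n → Fin N, f c * ∑ P : Fin n → (Fin n → Fin N),
          ∏ i, (if P i i = c i then w (P i) else 0) := by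
        rw [sum_comm]
        apply sum_congr rfl
        intro c _
        rw [mul_sum]
    _ = _ := by
        apply sum_congr rfl
        intro c _
        rw [sum_pi_prod (fun i q => if q i = c i then w q else 0)]
        simp only [hw _ _]
        rw [prod_const, card_univ, Fintype.card_fin]

/-- the cell masses of a copula -/
noncomputable def wt (C : (Fin n → ℝ) → ℝ) (N : ℕ) (p : Fin n → Fin N) : ℝ :=
  mass C N (fun k => (p k : ℕ))

theorem sum_cell_eq (f : (Fin n → ℕ) → ℝ) :
    ∑ p : Fin n → Fin N, f (fun k => (p k : ℕ)) =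
      ∑ j ∈ Fintype.piFinset (fun _ : Fin n => range N), f j := by
  apply sum_bij (fun (p : Fin n → Fin N) _ => (fun k => (p k : ℕ)))
  · intro p _
    rw [Fintype.mem_piFinset]
    exact fun k => mem_range.mpr (p k).isLt
  · intro p _ q _ h
    funext k
    exact Fin.ext (congrFun h k)
  · intro j hj
    rw [Fintype.mem_piFinset] at hj
    exact ⟨fun k => ⟨j k, mem_range.mp (hj k)⟩, mem_univ _, rfl⟩
  · intro p _
    rfl

theorem unif_wt (hn : 1 ≤ n) {C : (Fin n → ℝ) → ℝ} (hC : IsCopula n C) (hN : 1 ≤ N) :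
    UnifW (wt C N) := by
  intro k c
  have h1 := sum_mass_slab hn hC hN k c.isLt
  rw [← h1, sum_filter, ← sum_cell_eq]
  apply sum_congr rfl
  intro p _
  unfold wt
  by_cases h : p k = c
  · rw [if_pos h, if_pos (show ((p k : Fin N) : ℕ) = c from congrArg _ h)]
  · rw [if_neg h, if_neg (fun h' => h (Fin.ext h'))]

theorem wt_nonneg {C : (Fin n → ℝ) → ℝ} (hC : IsCopula n C) (hN : 1 ≤ N) (p : Fin n → Fin N) :
    0 ≤ wt C N p := mass_nonneg hC hN fun k => (p k).isLt

/-! ### Boxes -/

/-- the cell `c` moved by `e` -/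
def bx (N : ℕ) (e : ℝ) (c : Fin n → Fin N) : Set (Fin n → ℝ) :=
  Set.univ.pi fun k => Set.Ico ((((c k : ℕ) : ℝ) + e) / N) ((((c k : ℕ) : ℝ) + e + 1) / N)

theorem volume_bx (e : ℝ) (c : Fin n → Fin N) :
    volume (bx N e c) = ENNReal.ofReal ((1 / (N : ℝ)) ^ n) := by
  unfold bx
  rw [volume_pi_pi]
  have : ∀ k, volume (Set.Ico ((((c k : ℕ) : ℝ) + e) / N) ((((c k : ℕ) : ℝ) + e + 1) / N)) =
      ENNReal.ofReal (1 / N) := by
    intro k
    rw [Real.volume_Ico]
    congr 1
    ring
  rw [prod_congr rfl fun k _ => this k, prod_const, card_univ, Fintype.card_fin,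
    ENNReal.ofReal_pow (by positivity)]

theorem disjoint_bx (hN : 1 ≤ N) (e : ℝ) {c d : Fin n → Fin N} (h : c ≠ d) :
    Disjoint (bx N e c) (bx N e d) := by
  have hN' : (0 : ℝ) < N := by exact_mod_cast hN
  rw [Set.disjoint_left]
  intro x hx hy
  apply h
  funext k
  have h1 := hx k (Set.mem_univ _)
  have h2 := hy k (Set.mem_univ _)
  obtain ⟨h3, h4⟩ := h1
  obtain ⟨h5, h6⟩ := h2
  rw [div_le_iff₀ hN'] at h3 h5
  rw [lt_div_iff₀ hN'] at h4 h6
  apply Fin.ext
  have h7 : ((c k : ℕ) : ℝ) < (d k : ℕ) + 1 := by linarith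
  have h8 : ((d k : ℕ) : ℝ) < (c k : ℕ) + 1 := by linarith
  have h9 : (c k : ℕ) < (d k : ℕ) + 1 := by exact_mod_cast h7
  have h10 : (d k : ℕ) < (c k : ℕ) + 1 := by exact_mod_cast h8
  omega

theorem card_face (k : Fin n) (a : Fin N) :
    ((univ.filter fun c : Fin n → Fin N => c k = a).card : ℝ) = (N : ℝ) ^ (n - 1) := by
  have h1 : (univ.filter fun c : Fin n → Fin N => c k = a) =
      Fintype.piFinset (fun l : Fin n => if l = k then {a} else univ) := by
    ext c
    simp only [mem_filter, mem_univ, true_and, Fintype.mem_piFinset]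
    constructor
    · intro h l
      split_ifs with hl
      · rw [hl, h]; exact mem_singleton_self _
      · exact mem_univ _
    · intro h
      have := h k
      rwa [if_pos rfl, mem_singleton] at this
  rw [h1, Fintype.card_piFinset]
  have h2 : ∀ l : Fin n, (if l = k then ({a} : Finset (Fin N)) else univ).card =
      if l = k then 1 else N := by
    intro l
    split_ifs
    · simp
    · simp
  rw [prod_congr rfl fun l _ => h2 l, ← mul_prod_erase univ _ (mem_univ k), if_pos rfl, one_mul]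
  have h3 : ∏ l ∈ univ.erase k, (if l = k then 1 else N) = N ^ (n - 1) := by
    rw [prod_congr rfl (g := fun _ => N) fun l hl => if_neg (ne_of_mem_erase hl), prod_const,
      card_erase_of_mem (mem_univ k), card_univ, Fintype.card_fin]
  rw [h3]
  push_cast
  rfl

open Classical in
/-- cells whose moved boxes are inside a set -/
theorem cells_gen (hN : 1 ≤ N) (S : Set (Fin n → ℝ)) (hS : volume S ≠ ⊤)
    (I : (Fin n → Fin N) → Prop) (e : ℝ) (a : Fin N)
    (hI : ∀ c, I c → (∀ k, c k ≠ a) → bx N e c ⊆ S) :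
    (∑ c : Fin n → Fin N, if I c then (1 / (N : ℝ)) ^ n else 0) ≤
      (volume S).toReal + n / N := by
  have hN' : (0 : ℝ) < N := by exact_mod_cast hN
  set G := univ.filter fun c : Fin n → Fin N => I c ∧ ∀ k, c k ≠ a with hG
  have h1 : (∑ c ∈ G, (1 / (N : ℝ)) ^ n) ≤ (volume S).toReal := by
    have h2 : (⋃ c ∈ G, bx N e c) ⊆ S := by
      intro x hx
      simp only [Set.mem_iUnion] at hx
      obtain ⟨c, hc, hx⟩ := hx
      rw [hG, mem_filter] at hc
      exact hI c hc.2.1 hc.2.2 hx
    have h3 := measure_mono (μ := volume) h2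
    rw [measure_biUnion_finset (fun c _ d _ hcd => disjoint_bx hN e hcd)
      (fun c _ => MeasurableSet.univ_pi fun k => measurableSet_Ico)] at h3
    rw [sum_congr rfl fun c _ => volume_bx e c, ← ENNReal.ofReal_sum_of_nonneg
      (fun c _ => by positivity)] at h3
    exact (ENNReal.ofReal_le_iff_le_toReal hS).mp h3
  have hpos : (0 : ℝ) ≤ (1 / (N : ℝ)) ^ n := by positivity
  have h4 : (∑ c : Fin n → Fin N, if I c then (1 / (N : ℝ)) ^ n else 0) ≤
      (∑ c ∈ G, (1 / (N : ℝ)) ^ n) +
        ∑ k : Fin n, ∑ c : Fin n → Fin N, if c k = a then (1 / (N : ℝ)) ^ n else 0 := by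
    rw [hG, sum_filter, sum_comm, ← sum_add_distrib]
    apply sum_le_sum
    intro c _
    have hsum : 0 ≤ ∑ k : Fin n, if c k = a then (1 / (N : ℝ)) ^ n else 0 :=
      sum_nonneg fun k _ => by split_ifs <;> [exact hpos; exact le_rfl]
    by_cases hc : I c
    · rw [if_pos hc]
      by_cases hk : ∀ k, c k ≠ a
      · rw [if_pos ⟨hc, hk⟩]
        linarith
      · rw [if_neg (fun h => hk h.2)]
        push Not at hk
        obtain ⟨k, hk⟩ := hk
        rw [zero_add]
        refine le_trans ?_ (single_le_sum (f := fun k => if c k = a then (1 / (N : ℝ)) ^ n else 0)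
          (fun k _ => by split_ifs <;> [exact hpos; exact le_rfl]) (mem_univ k))
        simp only [if_pos hk, le_refl]
    · rw [if_neg hc]
      have : (0 : ℝ) ≤ if I c ∧ ∀ k, c k ≠ a then (1 / (N : ℝ)) ^ n else 0 := by
        split_ifs <;> [exact hpos; exact le_rfl]
      linarith
  have h5 : ∀ k : Fin n, (∑ c : Fin n → Fin N, if c k = a then (1 / (N : ℝ)) ^ n else (0 : ℝ)) =
      1 / (N : ℝ) := by
    intro k
    rw [← sum_filter, sum_const, nsmul_eq_mul, card_face]
    obtain ⟨m, rfl⟩ : ∃ m, n = m + 1 := ⟨n - 1, by have := k.isLt; omega⟩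
    rw [Nat.add_sub_cancel, one_div, inv_pow, pow_succ]
    field_simp
  have h7 : ∑ _k : Fin n, 1 / (N : ℝ) = n / N := by
    rw [sum_const, card_univ, Fintype.card_fin, nsmul_eq_mul]
    ring
  rw [sum_congr rfl fun k _ => h5 k, h7] at h4
  linarith

open Classical in
/-- the cells whose upper corner has positive value -/
theorem cells_pos {C : (Fin n → ℝ) → ℝ} (hC : IsCopula n C) (hN : 1 ≤ N) :
    (∑ c : Fin n → Fin N, if 0 < C (gp N (fun k => (c k : ℕ) + 1)) then (1 / (N : ℝ)) ^ n else 0) ≤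
      (volume (posSet n C)).toReal + n / N := by
  have hN' : (0 : ℝ) < N := by exact_mod_cast hN
  apply cells_gen hN _ (volume_posSet_ne_top C)
    (fun c : Fin n → Fin N => 0 < C (gp N (fun k => (c k : ℕ) + 1))) 1 ⟨N - 1, by omega⟩
  intro c hc hk x hx
  have hxk : ∀ k, (((c k : ℕ) : ℝ) + 1) / (N : ℝ) ≤ x k ∧
      x k < (((c k : ℕ) : ℝ) + 1 + 1) / (N : ℝ) := fun k => hx k (Set.mem_univ _)
  have hcube : x ∈ cube n := by
    intro k
    refine ⟨le_trans (by positivity) (hxk k).1, (hxk k).2.le.trans ?_⟩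
    rw [div_le_one hN']
    have h1 : (c k : ℕ) ≠ N - 1 := fun h => hk k (Fin.ext h)
    have h2 := (c k).isLt
    have h3 : (c k : ℕ) + 1 + 1 ≤ N := by omega
    exact_mod_cast h3
  refine ⟨hcube, lt_of_lt_of_le hc (copula_mono hC ?_ hcube ?_)⟩
  · exact gp_mem_cube hN fun k => (c k).isLt
  · intro k
    unfold gp
    have := (hxk k).1
    push_cast at this ⊢
    exact this

end Pool.Agent.Helper24.Sharp
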