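import Pool.Agent.Helper3.Cop.Bound

/-!
# Definitions for the lower half of the sharp asymptotics of `1 - s_n`

Cells of the grid `[N]^n`; `sx N c = (N - c) / N` is the flipped coordinate.
-/

set_option autoImplicit false

namespace Pool.Agent.Helper24.Sharp

open Finset MeasureTheory Pool.Agent.Helper43.Copula Pool.Agent.Helper3.Cop

variable {n N : ℕ}

/-- uniform margins -/
def UnifW (w : (Fin n → Fin N) → ℝ) : Prop :=
  ∀ (k : Fin n) (c : Fin N), ∑ p : Fin n → Fin N, (if p k = c then w p else 0) = 1 / N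

/-- the flipped coordinate of a cell -/
noncomputable def sx (N : ℕ) (c : Fin N) : ℝ := ((N : ℝ) - (c : ℕ)) / N

/-- the volume of the box below the flipped point -/
noncomputable def VV (p : Fin n → Fin N) : ℝ := ∏ k, sx N (p k)

/-- the sum of the inverses of the truncated coordinates -/
noncomputable def aa (ε : ℝ) (p : Fin n → Fin N) : ℝ := ∑ k, 1 / max (sx N (p k)) ε

/-- the part of `aa ε p` from the coordinates in which `p` is at most `q` (flipped order) -/
noncomputable def al (ε : ℝ) (p q : Fin n → Fin N) : ℝ :=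
  ∑ k, if sx N (p k) ≤ sx N (q k) then 1 / max (sx N (p k)) ε else 0

/-- the cross term -/
noncomputable def cross (ε : ℝ) (μ : (Fin n → Fin N) → ℝ) : ℝ :=
  ∑ p, ∑ q, μ p * μ q * ((∏ k, min (sx N (p k)) (sx N (q k))) * al ε p q * al ε q p /
    (Real.sqrt (VV p * aa ε p) * Real.sqrt (VV q * aa ε q)))

/-- (L1) the second moment inequality: `μ` are the masses of the cells -/
def SecondMoment : Prop :=
  ∀ (n N : ℕ) (C : (Fin n → ℝ) → ℝ) (ε : ℝ), 1 ≤ n → 1 ≤ N → IsCopula n C → 0 < ε →
    (∑ p : Fin n → Fin N, mass C N (fun k => (p k : ℕ)) * Real.sqrt (VV p * aa ε p)) ^ 2 ≤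
      ((volume (posSet n C)).toReal + n / N) *
        (1 + cross ε (fun p : Fin n → Fin N => mass C N (fun k => (p k : ℕ))))

end Pool.Agent.Helper24.Sharp
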