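import Pool.Agent.Helper24.Sharp.Base

/-!
# The second moment inequality for `n` random cells
-/

set_option autoImplicit false

namespace Pool.Agent.Helper24.Sharp

open MeasureTheory Finset Pool.Agent.Helper43.Copula Pool.Agent.Helper3.Cop

variable {n N : ℕ}

/-- sample `j` is below the mixed cell -/
def Ev (P : Fin n → (Fin n → Fin N)) (j : Fin n) : Prop := ∀ k, k ≠ j → P j k ≤ P k k

open Classical in
/-- one event -/
theorem one_event {w : (Fin n → Fin N) → ℝ} (hw : UnifW w) (j : Fin n)
    (F : (Fin n → Fin N) → ℝ) :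
    ∑ P : Fin n → (Fin n → Fin N), (∏ l, w (P l)) * (if Ev P j then F (P j) else 0) =
      ∑ p, w p * F p * ∏ k ∈ univ.erase j, sx N (p k) := by
  set g : (Fin n → Fin N) → Fin n → (Fin n → Fin N) → ℝ := fun p l x =>
    if l = j then (if x = p then w x else 0) else w x * (if p l ≤ x l then 1 else 0) with hg
  have h1 : ∀ P : Fin n → (Fin n → Fin N),
      (∏ l, w (P l)) * (if Ev P j then F (P j) else 0) = ∑ p, F p * ∏ l, g p l (P l) := by
    intro P
    rw [sum_eq_single (P j)]
    · rw [← mul_prod_erase univ (fun l => w (P l)) (mem_univ j),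
        ← mul_prod_erase univ (fun l => g (P j) l (P l)) (mem_univ j)]
      have h2 : g (P j) j (P j) = w (P j) := by simp [hg]
      have h3 : ∏ l ∈ univ.erase j, g (P j) l (P l) =
          (∏ l ∈ univ.erase j, w (P l)) * (if Ev P j then 1 else 0) := by
        by_cases hE : Ev P j
        · rw [if_pos hE, mul_one]
          apply prod_congr rfl
          intro l hl
          have hlj := ne_of_mem_erase hl
          simp only [hg, if_neg hlj, if_pos (hE l hlj), mul_one]
        · rw [if_neg hE, mul_zero]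
          unfold Ev at hE
          push Not at hE
          obtain ⟨k, hk, hk2⟩ := hE
          apply prod_eq_zero (mem_erase.mpr ⟨hk, mem_univ k⟩)
          simp only [hg, if_neg hk, if_neg (not_le.mpr hk2), mul_zero]
      rw [h2, h3]
      by_cases hE : Ev P j
      · simp only [if_pos hE]; ring
      · simp only [if_neg hE]; ring
    · intro p _ hp
      rw [prod_eq_zero (mem_univ j), mul_zero]
      simp only [hg, if_true, if_neg (Ne.symm hp)]
    · intro h
      exact absurd (mem_univ _) h
  rw [sum_congr rfl fun P _ => h1 P, sum_comm]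
  apply sum_congr rfl
  intro p _
  rw [← mul_sum, sum_pi_prod (g p), ← mul_prod_erase univ _ (mem_univ j)]
  have h4 : ∑ q, g p j q = w p := by
    simp only [hg, if_true]
    rw [sum_ite_eq' univ p w, if_pos (mem_univ _)]
  have h5 : ∏ l ∈ univ.erase j, ∑ q, g p l q = ∏ k ∈ univ.erase j, sx N (p k) := by
    apply prod_congr rfl
    intro l hl
    have hlj := ne_of_mem_erase hl
    simp only [hg, if_neg hlj]
    exact ge1 hw l (p l)
  rw [h4, h5]
  ring

open Classical in
/-- two events -/
theorem two_events {w : (Fin n → Fin N) → ℝ} (hw : UnifW w) (hN : 1 ≤ N) {i j : Fin n}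
    (hij : i ≠ j) (F G : (Fin n → Fin N) → ℝ) :
    ∑ P : Fin n → (Fin n → Fin N),
        (∏ l, w (P l)) * ((if Ev P i then F (P i) else 0) * (if Ev P j then G (P j) else 0)) =
      ∑ p, ∑ q, w p * w q * (F p * G q * (if p j ≤ q j ∧ q i ≤ p i then 1 else 0) *
        ∏ k ∈ (univ.erase i).erase j, min (sx N (p k)) (sx N (q k))) := by
  set g : (Fin n → Fin N) → (Fin n → Fin N) → Fin n → (Fin n → Fin N) → ℝ := fun p q l x =>
    if l = i then (if x = p then w x else 0) else
      if l = j then (if x = q then w x else 0) else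
        w x * (if p l ≤ x l ∧ q l ≤ x l then 1 else 0) with hg
  have hjmem : j ∈ univ.erase i := mem_erase.mpr ⟨hij.symm, mem_univ j⟩
  have hsplit : ∀ f : Fin n → ℝ, ∏ l, f l = f i * (f j * ∏ l ∈ (univ.erase i).erase j, f l) := by
    intro f
    rw [← mul_prod_erase univ f (mem_univ i), ← mul_prod_erase (univ.erase i) f hjmem]
  have h1 : ∀ P : Fin n → (Fin n → Fin N),
      (∏ l, w (P l)) * ((if Ev P i then F (P i) else 0) * (if Ev P j then G (P j) else 0)) =
      ∑ p, ∑ q, F p * G q * (if p j ≤ q j ∧ q i ≤ p i then 1 else 0) *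
        ∏ l, g p q l (P l) := by
    intro P
    rw [sum_eq_single (P i), sum_eq_single (P j)]
    · rw [hsplit (fun l => w (P l)), hsplit (fun l => g (P i) (P j) l (P l))]
      have h2 : g (P i) (P j) i (P i) = w (P i) := by simp [hg]
      have h2' : g (P i) (P j) j (P j) = w (P j) := by
        simp [hg, hij.symm]
      have h3 : (if P i j ≤ P j j ∧ P j i ≤ P i i then (1 : ℝ) else 0) *
          ∏ l ∈ (univ.erase i).erase j, g (P i) (P j) l (P l) =
          (∏ l ∈ (univ.erase i).erase j, w (P l)) * (if Ev P i ∧ Ev P j then 1 else 0) := by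
        by_cases hE : Ev P i ∧ Ev P j
        · rw [if_pos hE, mul_one, if_pos ⟨hE.1 j hij.symm, hE.2 i hij⟩, one_mul]
          apply prod_congr rfl
          intro l hl
          have hlj := ne_of_mem_erase hl
          have hli := ne_of_mem_erase (mem_of_mem_erase hl)
          simp only [hg, if_neg hlj, if_neg hli]
          rw [if_pos ⟨hE.1 l hli, hE.2 l hlj⟩, mul_one]
        · rw [if_neg hE, mul_zero]
          by_cases hc : P i j ≤ P j j ∧ P j i ≤ P i i
          · rw [if_pos hc, one_mul]
            -- some third index fails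
            obtain ⟨k, hki, hkj, hk⟩ : ∃ k, k ≠ i ∧ k ≠ j ∧ ¬ (P i k ≤ P k k ∧ P j k ≤ P k k) := by
              by_contra hcon
              push Not at hcon
              apply hE
              constructor
              · intro k hk
                rcases eq_or_ne k j with h | h
                · rw [h]; exact hc.1
                · exact (hcon k hk h).1
              · intro k hk
                rcases eq_or_ne k i with h | h
                · rw [h]; exact hc.2
                · exact (hcon k h hk).2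
            apply prod_eq_zero (mem_erase.mpr ⟨hkj, mem_erase.mpr ⟨hki, mem_univ k⟩⟩)
            simp only [hg, if_neg hki, if_neg hkj, if_neg hk, mul_zero]
          · rw [if_neg hc, zero_mul]
      rw [h2, h2']
      have h6 : F (P i) * G (P j) * (if P i j ≤ P j j ∧ P j i ≤ P i i then (1 : ℝ) else 0) *
          (w (P i) * (w (P j) * ∏ l ∈ (univ.erase i).erase j, g (P i) (P j) l (P l))) =
          F (P i) * G (P j) * w (P i) * w (P j) *
            ((if P i j ≤ P j j ∧ P j i ≤ P i i then (1 : ℝ) else 0) *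
              ∏ l ∈ (univ.erase i).erase j, g (P i) (P j) l (P l)) := by ring
      rw [h6, h3]
      by_cases hE1 : Ev P i
      · by_cases hE2 : Ev P j
        · rw [if_pos hE1, if_pos hE2, if_pos ⟨hE1, hE2⟩]; ring
        · rw [if_neg hE2, if_neg (fun h : Ev P i ∧ Ev P j => hE2 h.2)]; ring
      · rw [if_neg hE1, if_neg (fun h : Ev P i ∧ Ev P j => hE1 h.1)]; ring
    · intro q _ hq
      rw [prod_eq_zero (mem_univ j), mul_zero]
      simp only [hg, if_neg hij.symm, if_true, if_neg (Ne.symm hq)]
    · intro h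
      exact absurd (mem_univ _) h
    · intro p _ hp
      apply sum_eq_zero
      intro q _
      rw [prod_eq_zero (mem_univ i), mul_zero]
      simp only [hg, if_true, if_neg (Ne.symm hp)]
    · intro h
      exact absurd (mem_univ _) h
  rw [sum_congr rfl fun P _ => h1 P, sum_comm]
  apply sum_congr rfl
  intro p _
  rw [sum_comm]
  apply sum_congr rfl
  intro q _
  rw [← mul_sum, sum_pi_prod (g p q), hsplit]
  have h4 : ∑ x, g p q i x = w p := by
    simp only [hg, if_true]
    rw [sum_ite_eq' univ p w, if_pos (mem_univ _)]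
  have h4' : ∑ x, g p q j x = w q := by
    simp only [hg, if_neg hij.symm, if_true]
    rw [sum_ite_eq' univ q w, if_pos (mem_univ _)]
  have h5 : ∏ l ∈ (univ.erase i).erase j, ∑ x, g p q l x =
      ∏ k ∈ (univ.erase i).erase j, min (sx N (p k)) (sx N (q k)) := by
    apply prod_congr rfl
    intro l hl
    have hlj := ne_of_mem_erase hl
    have hli := ne_of_mem_erase (mem_of_mem_erase hl)
    simp only [hg, if_neg hlj, if_neg hli]
    exact ge2 hw hN l (p l) (q l)
  rw [h4, h4', h5]
  ring

/-- the damping weight times the inverse of the norm -/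
noncomputable def hh (ε : ℝ) (j : Fin n) (p : Fin n → Fin N) : ℝ :=
  sx N (p j) / max (sx N (p j)) ε / Real.sqrt (VV p * aa ε p)

theorem VV_pos (hN : 1 ≤ N) (p : Fin n → Fin N) : 0 < VV p :=
  prod_pos fun k _ => sx_pos hN (p k)

theorem aa_pos (hn : 1 ≤ n) (hN : 1 ≤ N) {ε : ℝ} (p : Fin n → Fin N) : 0 < aa ε p := by
  unfold aa
  apply sum_pos
  · intro k _
    apply div_pos one_pos
    exact lt_of_lt_of_le (sx_pos hN (p k)) (le_max_left _ _)
  · exact ⟨⟨0, hn⟩, mem_univ _⟩

theorem sqrt_pos' (hn : 1 ≤ n) (hN : 1 ≤ N) {ε : ℝ} (p : Fin n → Fin N) :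
    0 < Real.sqrt (VV p * aa ε p) :=
  Real.sqrt_pos.mpr (mul_pos (VV_pos hN p) (aa_pos hn hN p))

theorem sqrt_sq' (hn : 1 ≤ n) (hN : 1 ≤ N) {ε : ℝ} (p : Fin n → Fin N) :
    Real.sqrt (VV p * aa ε p) ^ 2 = VV p * aa ε p :=
  Real.sq_sqrt (mul_pos (VV_pos hN p) (aa_pos hn hN p)).le

theorem hh_nonneg (hN : 1 ≤ N) {ε : ℝ} (j : Fin n) (p : Fin n → Fin N) : 0 ≤ hh ε j p := by
  unfold hh
  apply div_nonneg _ (Real.sqrt_nonneg _)
  apply div_nonneg (sx_pos hN _).le
  exact (sx_pos hN (p j)).le.trans (le_max_left _ _)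

theorem hh_prod {ε : ℝ} (j : Fin n) (p : Fin n → Fin N) :
    hh ε j p * ∏ k ∈ univ.erase j, sx N (p k) =
      VV p * (1 / max (sx N (p j)) ε) / Real.sqrt (VV p * aa ε p) := by
  unfold hh
  have h1 : VV p = sx N (p j) * ∏ k ∈ univ.erase j, sx N (p k) := by
    unfold VV
    rw [mul_prod_erase univ (fun k => sx N (p k)) (mem_univ j)]
  rw [h1]
  ring

/-- the first moment -/
theorem first_sum (hn : 1 ≤ n) (hN : 1 ≤ N) {ε : ℝ} (p : Fin n → Fin N) :
    ∑ j, hh ε j p * ∏ k ∈ univ.erase j, sx N (p k) = Real.sqrt (VV p * aa ε p) := by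
  rw [sum_congr rfl fun j _ => hh_prod j p, ← sum_div, ← mul_sum]
  change VV p * aa ε p / Real.sqrt (VV p * aa ε p) = _
  rw [← sqrt_sq' hn hN (ε := ε) p, Real.sqrt_sq (Real.sqrt_nonneg _), sq,
    mul_div_assoc, div_self (sqrt_pos' hn hN p).ne', mul_one]

/-- the diagonal terms of the second moment -/
theorem diag_sum (hn : 1 ≤ n) (hN : 1 ≤ N) {ε : ℝ} (p : Fin n → Fin N) :
    ∑ j, hh ε j p * hh ε j p * ∏ k ∈ univ.erase j, sx N (p k) ≤ 1 := by
  set r := Real.sqrt (VV p * aa ε p) with hr
  have hr0 : 0 < r := sqrt_pos' hn hN p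
  have h1 : ∀ j, hh ε j p * hh ε j p * ∏ k ∈ univ.erase j, sx N (p k) ≤
      (1 / r) * (hh ε j p * ∏ k ∈ univ.erase j, sx N (p k)) := by
    intro j
    rw [mul_assoc]
    apply mul_le_mul_of_nonneg_right
    · unfold hh
      apply div_le_div_of_nonneg_right _ hr0.le
      have hm : 0 < max (sx N (p j)) ε := lt_of_lt_of_le (sx_pos hN (p j)) (le_max_left _ _)
      rw [div_le_one hm]
      exact le_max_left _ _
    · exact mul_nonneg (hh_nonneg hN j p) (prod_nonneg fun k _ => (sx_pos hN _).le)
  refine (sum_le_sum fun j _ => h1 j).trans ?_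
  rw [← mul_sum, first_sum hn hN p, one_div, inv_mul_cancel₀ hr0.ne']

/-- the off-diagonal terms -/
theorem off_le (hn : 1 ≤ n) (hN : 1 ≤ N) {ε : ℝ} (p q : Fin n → Fin N) {i j : Fin n}
    (hij : i ≠ j) :
    hh ε i p * hh ε j q * (if p j ≤ q j ∧ q i ≤ p i then 1 else 0) *
        ∏ k ∈ (univ.erase i).erase j, min (sx N (p k)) (sx N (q k)) =
      (∏ k, min (sx N (p k)) (sx N (q k))) /
        (Real.sqrt (VV p * aa ε p) * Real.sqrt (VV q * aa ε q)) *
        ((if sx N (p i) ≤ sx N (q i) then 1 / max (sx N (p i)) ε else 0) *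
          (if sx N (q j) ≤ sx N (p j) then 1 / max (sx N (q j)) ε else 0)) := by
  have hjmem : j ∈ univ.erase i := mem_erase.mpr ⟨hij.symm, mem_univ j⟩
  rw [← mul_prod_erase univ (fun k => min (sx N (p k)) (sx N (q k))) (mem_univ i),
    ← mul_prod_erase (univ.erase i) (fun k => min (sx N (p k)) (sx N (q k))) hjmem]
  by_cases h1 : sx N (p i) ≤ sx N (q i)
  · by_cases h2 : sx N (q j) ≤ sx N (p j)
    · rw [if_pos ⟨(sx_le_iff hN _ _).mp h2, (sx_le_iff hN _ _).mp h1⟩, if_pos h1, if_pos h2,
        min_eq_left h1, min_eq_right h2]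
      unfold hh
      have hr1 := (sqrt_pos' hn hN (ε := ε) p).ne'
      have hr2 := (sqrt_pos' hn hN (ε := ε) q).ne'
      have hm1 : max (sx N (p i)) ε ≠ 0 :=
        (lt_of_lt_of_le (sx_pos hN (p i)) (le_max_left _ _)).ne'
      have hm2 : max (sx N (q j)) ε ≠ 0 :=
        (lt_of_lt_of_le (sx_pos hN (q j)) (le_max_left _ _)).ne'
      field_simp
    · rw [if_neg h2, if_neg (fun h => h2 ((sx_le_iff hN _ _).mpr h.1))]
      ring
  · rw [if_neg h1, if_neg (fun h => h1 ((sx_le_iff hN _ _).mpr h.2))]
    ring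

theorem al_nonneg (hN : 1 ≤ N) {ε : ℝ} (p q : Fin n → Fin N) : 0 ≤ al ε p q := by
  unfold al
  apply sum_nonneg
  intro k _
  split_ifs
  · exact div_nonneg zero_le_one ((sx_pos hN (p k)).le.trans (le_max_left _ _))
  · exact le_rfl

theorem off_sum (hn : 1 ≤ n) (hN : 1 ≤ N) {ε : ℝ} (p q : Fin n → Fin N) :
    ∑ i, ∑ j, (if i = j then 0 else
        hh ε i p * hh ε j q * (if p j ≤ q j ∧ q i ≤ p i then 1 else 0) *
        ∏ k ∈ (univ.erase i).erase j, min (sx N (p k)) (sx N (q k))) ≤
      (∏ k, min (sx N (p k)) (sx N (q k))) * al ε p q * al ε q p /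
        (Real.sqrt (VV p * aa ε p) * Real.sqrt (VV q * aa ε q)) := by
  have hK : 0 ≤ (∏ k, min (sx N (p k)) (sx N (q k))) /
        (Real.sqrt (VV p * aa ε p) * Real.sqrt (VV q * aa ε q)) := by
    apply div_nonneg
    · exact prod_nonneg fun k _ => le_min (sx_pos hN _).le (sx_pos hN _).le
    · exact mul_nonneg (Real.sqrt_nonneg _) (Real.sqrt_nonneg _)
  have h1 : ∀ i j, (if i = j then 0 else
        hh ε i p * hh ε j q * (if p j ≤ q j ∧ q i ≤ p i then 1 else 0) *
        ∏ k ∈ (univ.erase i).erase j, min (sx N (p k)) (sx N (q k))) ≤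
      (∏ k, min (sx N (p k)) (sx N (q k))) /
        (Real.sqrt (VV p * aa ε p) * Real.sqrt (VV q * aa ε q)) *
        ((if sx N (p i) ≤ sx N (q i) then 1 / max (sx N (p i)) ε else 0) *
          (if sx N (q j) ≤ sx N (p j) then 1 / max (sx N (q j)) ε else 0)) := by
    intro i j
    have hnn : ∀ x y z : ℝ, 0 < x → 0 ≤ (if y ≤ z then 1 / max x ε else 0) := by
      intro x y z hx
      split_ifs
      · exact div_nonneg zero_le_one (hx.le.trans (le_max_left _ _))
      · exact le_rfl
    rcases eq_or_ne i j with hij | hij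
    · rw [if_pos hij]
      exact mul_nonneg hK (mul_nonneg (hnn _ _ _ (sx_pos hN _)) (hnn _ _ _ (sx_pos hN _)))
    · rw [if_neg hij, off_le hn hN p q hij]
  refine (sum_le_sum fun i _ => sum_le_sum fun j _ => h1 i j).trans (le_of_eq ?_)
  simp_rw [← mul_sum]
  rw [← sum_mul]
  unfold al
  ring

open Classical in
/-- the first moment of the weighted count -/
theorem expect_one (hn : 1 ≤ n) (hN : 1 ≤ N) {w : (Fin n → Fin N) → ℝ} (hw : UnifW w) (ε : ℝ) :
    ∑ P : Fin n → (Fin n → Fin N), (∏ l, w (P l)) * ∑ j, (if Ev P j then hh ε j (P j) else 0) =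
      ∑ p, w p * Real.sqrt (VV p * aa ε p) := by
  simp_rw [mul_sum]
  rw [sum_comm, sum_congr rfl fun j _ => one_event hw j (hh ε j), sum_comm]
  apply sum_congr rfl
  intro p _
  rw [← first_sum hn hN p, mul_sum]
  apply sum_congr rfl
  intro j _
  ring

open Classical in
/-- the second moment of the weighted count -/
theorem expect_two (hn : 1 ≤ n) (hN : 1 ≤ N) {w : (Fin n → Fin N) → ℝ} (hw : UnifW w)
    (hw0 : ∀ p, 0 ≤ w p) (ε : ℝ) :
    ∑ P : Fin n → (Fin n → Fin N),
        (∏ l, w (P l)) * (∑ j, (if Ev P j then hh ε j (P j) else 0)) ^ 2 ≤ 1 + cross ε w := by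
  have h1 : ∀ P : Fin n → (Fin n → Fin N),
      (∏ l, w (P l)) * (∑ j, (if Ev P j then hh ε j (P j) else 0)) ^ 2 =
      (∑ j, (∏ l, w (P l)) * (if Ev P j then hh ε j (P j) * hh ε j (P j) else 0)) +
      ∑ i, ∑ j, (if i = j then 0 else (∏ l, w (P l)) *
        ((if Ev P i then hh ε i (P i) else 0) * (if Ev P j then hh ε j (P j) else 0))) := by
    intro P
    rw [sq, sum_mul_sum, mul_sum, ← sum_add_distrib]
    apply sum_congr rfl
    intro i _
    rw [mul_sum, ← add_sum_erase univ _ (mem_univ i),
      ← add_sum_erase univ (fun j => if i = j then (0 : ℝ) else (∏ l, w (P l)) *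
        ((if Ev P i then hh ε i (P i) else 0) * (if Ev P j then hh ε j (P j) else 0)))
        (mem_univ i), if_pos rfl, zero_add]
    have h2 : (∏ l, w (P l)) * ((if Ev P i then hh ε i (P i) else 0) *
        (if Ev P i then hh ε i (P i) else 0)) =
        (∏ l, w (P l)) * (if Ev P i then hh ε i (P i) * hh ε i (P i) else 0) := by
      by_cases h : Ev P i
      · simp only [if_pos h]
      · simp only [if_neg h, mul_zero]
    rw [h2]
    congr 1
    apply sum_congr rfl
    intro j hj
    rw [if_neg (ne_of_mem_erase hj).symm]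
  rw [sum_congr rfl fun P _ => h1 P, sum_add_distrib]
  apply add_le_add
  · rw [sum_comm, sum_congr rfl fun j _ => one_event hw j (fun p => hh ε j p * hh ε j p),
      sum_comm]
    rw [← total hn hw hN]
    apply sum_le_sum
    intro p _
    have h3 := mul_le_mul_of_nonneg_left (diag_sum hn hN (ε := ε) p) (hw0 p)
    rw [mul_one, mul_sum] at h3
    refine le_trans (le_of_eq ?_) h3
    apply sum_congr rfl
    intro j _
    ring
  · rw [sum_comm]
    have h4 : ∀ i j : Fin n, ∑ P : Fin n → (Fin n → Fin N), (if i = j then 0 else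
        (∏ l, w (P l)) *
        ((if Ev P i then hh ε i (P i) else 0) * (if Ev P j then hh ε j (P j) else 0))) =
        ∑ p, ∑ q, w p * w q * (if i = j then 0 else
        hh ε i p * hh ε j q * (if p j ≤ q j ∧ q i ≤ p i then 1 else 0) *
        ∏ k ∈ (univ.erase i).erase j, min (sx N (p k)) (sx N (q k))) := by
      intro i j
      rcases eq_or_ne i j with hij | hij
      · simp only [if_pos hij, sum_const_zero, mul_zero]
      · simp only [if_neg hij]
        rw [two_events hw hN hij]
    have h5 : ∀ i : Fin n, ∑ P : Fin n → (Fin n → Fin N), ∑ j, (if i = j then 0 else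
        (∏ l, w (P l)) *
        ((if Ev P i then hh ε i (P i) else 0) * (if Ev P j then hh ε j (P j) else 0))) =
        ∑ p, ∑ q, ∑ j, w p * w q * (if i = j then 0 else
        hh ε i p * hh ε j q * (if p j ≤ q j ∧ q i ≤ p i then 1 else 0) *
        ∏ k ∈ (univ.erase i).erase j, min (sx N (p k)) (sx N (q k))) := by
      intro i
      rw [sum_comm, sum_congr rfl fun j _ => h4 i j, sum_comm]
      apply sum_congr rfl
      intro p _
      rw [sum_comm]
    rw [sum_congr rfl fun i _ => h5 i, sum_comm]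
    unfold cross
    apply sum_le_sum
    intro p _
    rw [sum_comm]
    apply sum_le_sum
    intro q _
    simp_rw [← mul_sum]
    exact mul_le_mul_of_nonneg_left (off_sum hn hN p q) (mul_nonneg (hw0 p) (hw0 q))

open Classical in
theorem second_general (hn : 1 ≤ n) (hN : 1 ≤ N) {w : (Fin n → Fin N) → ℝ} (hw : UnifW w)
    (hw0 : ∀ p, 0 ≤ w p) (ε : ℝ) (I : (Fin n → Fin N) → Prop)
    (hI : ∀ p c : Fin n → Fin N, 0 < w p → (∀ k, p k ≤ c k) → I c) :
    (∑ p, w p * Real.sqrt (VV p * aa ε p)) ^ 2 ≤
      (∑ c : Fin n → Fin N, if I c then (1 / (N : ℝ)) ^ n else 0) * (1 + cross ε w) := by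
  set S : (Fin n → (Fin n → Fin N)) → ℝ := fun P => ∑ j, (if Ev P j then hh ε j (P j) else 0)
    with hS
  set W : (Fin n → (Fin n → Fin N)) → ℝ := fun P => ∏ l, w (P l) with hW
  have hW0 : ∀ P, 0 ≤ W P := fun P => prod_nonneg fun l _ => hw0 _
  have hcs := Finset.sum_mul_sq_le_sq_mul_sq univ
    (fun P : Fin n → (Fin n → Fin N) => Real.sqrt (W P) * (if I (fun k => P k k) then 1 else 0))
    (fun P => Real.sqrt (W P) * S P)
  have e1 : ∀ P, Real.sqrt (W P) * (if I (fun k => P k k) then 1 else 0) *
      (Real.sqrt (W P) * S P) = W P * S P := by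
    intro P
    by_cases h : I (fun k => P k k)
    · rw [if_pos h, mul_one, ← mul_assoc, Real.mul_self_sqrt (hW0 P)]
    · rw [if_neg h, mul_zero, zero_mul]
      rcases (hW0 P).eq_or_lt with h0 | h0
      · rw [← h0, zero_mul]
      · have hno : ∀ j, ¬ Ev P j := by
          intro j hj
          apply h
          apply hI (P j)
          · rcases (hw0 (P j)).eq_or_lt with h1 | h1
            · exfalso
              rw [hW] at h0
              simp only at h0
              rw [prod_eq_zero (mem_univ j) h1.symm] at h0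
              exact lt_irrefl _ h0
            · exact h1
          · intro k
            rcases eq_or_ne k j with h2 | h2
            · rw [h2]
            · exact hj k h2
        have : S P = 0 := by
          rw [hS]
          apply sum_eq_zero
          intro j _
          rw [if_neg (hno j)]
        rw [this, mul_zero]
  have e2 : ∀ P : Fin n → (Fin n → Fin N),
      (Real.sqrt (W P) * (if I (fun k => P k k) then (1 : ℝ) else 0)) ^ 2 =
      W P * (if I (fun k => P k k) then 1 else 0) := by
    intro P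
    rw [mul_pow, Real.sq_sqrt (hW0 P)]
    split_ifs <;> norm_num
  have e3 : ∀ P : Fin n → (Fin n → Fin N), (Real.sqrt (W P) * S P) ^ 2 = W P * S P ^ 2 := by
    intro P
    rw [mul_pow, Real.sq_sqrt (hW0 P)]
  rw [sum_congr rfl fun P _ => e1 P, sum_congr rfl fun P _ => e2 P,
    sum_congr rfl fun P _ => e3 P] at hcs
  rw [expect_one hn hN hw ε, sum_diag hw (fun c => if I c then (1 : ℝ) else 0)] at hcs
  have e4 : ∑ c : Fin n → Fin N, (if I c then (1 : ℝ) else 0) * (1 / (N : ℝ)) ^ n =
      ∑ c : Fin n → Fin N, if I c then (1 / (N : ℝ)) ^ n else 0 := by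
    apply sum_congr rfl
    intro c _
    split_ifs <;> simp
  rw [e4] at hcs
  refine hcs.trans (mul_le_mul_of_nonneg_left (expect_two hn hN hw hw0 ε) ?_)
  apply sum_nonneg
  intro c _
  split_ifs
  · positivity
  · exact le_rfl

theorem cross_nonneg (hN : 1 ≤ N) {w : (Fin n → Fin N) → ℝ} (hw0 : ∀ p, 0 ≤ w p) (ε : ℝ) :
    0 ≤ cross ε w := by
  unfold cross
  apply sum_nonneg
  intro p _
  apply sum_nonneg
  intro q _
  apply mul_nonneg (mul_nonneg (hw0 p) (hw0 q))
  apply div_nonneg
  · exact mul_nonneg (mul_nonneg (prod_nonneg fun k _ => le_min (sx_pos hN _).le (sx_pos hN _).le)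
      (al_nonneg hN p q)) (al_nonneg hN q p)
  · exact mul_nonneg (Real.sqrt_nonneg _) (Real.sqrt_nonneg _)

theorem secondMoment : SecondMoment := by
  classical
  intro n N C ε hn hN hC _
  have hu := unif_wt hn hC hN
  have hw0 := wt_nonneg hC hN
  have h1 := second_general hn hN hu hw0 ε
    (fun c => 0 < C (gp N (fun k => (c k : ℕ) + 1))) (by
      intro p c hp hpc
      refine lt_of_lt_of_le hp ((mass_le hn hC hN fun k => (p k).isLt).trans ?_)
      apply copula_mono hC (gp_mem_cube hN fun k => (p k).isLt)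
        (gp_mem_cube hN fun k => (c k).isLt)
      intro k
      unfold gp
      apply div_le_div_of_nonneg_right _ (by positivity)
      have := Fin.le_def.mp (hpc k)
      exact_mod_cast Nat.add_le_add_right this 1)
  refine h1.trans (mul_le_mul_of_nonneg_right ?_ ?_)
  · exact cells_pos hC hN
  · have := cross_nonneg hN hw0 ε
    linarith

end Pool.Agent.Helper24.Sharp
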